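import Pool.Agent.Helper51.REC.Goals2

/-!
Project REC (MP_fc6b1e_nt), packet REC-D_LIN: an algebraic lemma.
-/

namespace Pool.Agent.Helper3.REC

open Pool.Agent.Helper51.REC

theorem exists_indep {K : Type} [Field K] (x y : K × K) (hx : x ≠ 0) (hy : y ≠ 0) :
    ∃ v : K × K, x.1 * v.2 - x.2 * v.1 ≠ 0 ∧ y.1 * v.2 - y.2 * v.1 ≠ 0 := by
  by_cases h : x.1 * y.2 - x.2 * y.1 = 0
  · have h1 : ∃ v : K × K, x.1 * v.2 - x.2 * v.1 ≠ 0 := by
      by_cases ha : x.1 = 0
      · refine ⟨(1, 0), ?_⟩
        have hb : x.2 ≠ 0 := fun hb => hx (Prod.ext ha hb)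
        simpa using hb
      · refine ⟨(0, 1), ?_⟩
        simpa using ha
    obtain ⟨v, hv⟩ := h1
    refine ⟨v, hv, ?_⟩
    intro h2
    apply hy
    have e1 : (x.1 * v.2 - x.2 * v.1) * y.1 = 0 := by
      linear_combination x.1 * h2 + v.1 * h
    have e2 : (x.1 * v.2 - x.2 * v.1) * y.2 = 0 := by
      linear_combination x.2 * h2 + v.2 * h
    exact Prod.ext ((mul_eq_zero.1 e1).resolve_left hv) ((mul_eq_zero.1 e2).resolve_left hv)
  · refine ⟨x + y, ?_, ?_⟩
    · intro h2
      apply h
      simp only [Prod.fst_add, Prod.snd_add] at h2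
      linear_combination h2
    · intro h2
      apply h
      simp only [Prod.fst_add, Prod.snd_add] at h2
      linear_combination -h2

theorem d_lin : D_LIN := by
  classical
  intro p _ A _ Λ f hΛ hs hf
  have hdet0 : ∀ a b : A, (Λ a).1 * (Λ b).2 - (Λ a).2 * (Λ b).1 ≠ 0 → Λ a ≠ 0 := by
    intro a b h h2
    apply h
    rw [h2]
    simp
  -- independence of the base point
  have step : ∀ κ u v : A, Λ κ = 0 → (Λ u).1 * (Λ v).2 - (Λ u).2 * (Λ v).1 ≠ 0 →
      f (κ * u) - f u = f (κ * v) - f v := by
    intro κ u v hκ h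
    have e1 : f (κ * u * v) = f (κ * u) + f v := by
      apply hf
      rw [hΛ, hκ, zero_add]
      exact h
    have e2 : f (u * (κ * v)) = f u + f (κ * v) := by
      apply hf
      rw [hΛ, hκ, zero_add]
      exact h
    have e3 : κ * u * v = u * (κ * v) := by
      rw [mul_comm κ u, mul_assoc]
    rw [e3, e2] at e1
    linear_combination -e1
  have step2 : ∀ κ u u' : A, Λ κ = 0 → Λ u ≠ 0 → Λ u' ≠ 0 →
      f (κ * u) - f u = f (κ * u') - f u' := by
    intro κ u u' hκ hu hu'
    obtain ⟨w, h1, h2⟩ := exists_indep (Λ u) (Λ u') hu hu'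
    obtain ⟨v, rfl⟩ := hs w
    rw [step κ u v hκ h1, step κ u' v hκ h2]
  obtain ⟨u0, hu0⟩ := hs (1, 0)
  have hu0' : Λ u0 ≠ 0 := by
    rw [hu0]
    intro h
    exact one_ne_zero (congrArg Prod.fst h)
  set g : A → ZMod p := fun κ => f (κ * u0) - f u0 with hg
  have hgu : ∀ κ u : A, Λ κ = 0 → Λ u ≠ 0 → f (κ * u) = g κ + f u := by
    intro κ u hκ hu
    have := step2 κ u u0 hκ hu hu0'
    rw [hg]
    linear_combination this
  have hgadd : ∀ κ κ' : A, Λ κ = 0 → Λ κ' = 0 → g (κ * κ') = g κ + g κ' := by
    intro κ κ' h h'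
    have hu : Λ (κ' * u0) ≠ 0 := by
      rw [hΛ, h', zero_add]
      exact hu0'
    have e1 := hgu κ (κ' * u0) h hu
    have e2 := hgu κ' u0 h' hu0'
    have e3 : g (κ * κ') = f (κ * (κ' * u0)) - f u0 := by
      rw [hg]
      simp only [mul_assoc]
    rw [e3, e1, e2]
    ring
  refine ⟨fun a => if Λ a = 0 then g a else f a, ?_, ?_⟩
  · intro a b
    simp only
    by_cases ha : Λ a = 0
    · by_cases hb : Λ b = 0
      · rw [if_pos ha, if_pos hb, if_pos (by rw [hΛ, ha, hb, add_zero]), hgadd a b ha hb]
      · rw [if_pos ha, if_neg hb, if_neg (by rw [hΛ, ha, zero_add]; exact hb), hgu a b ha hb]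
    · by_cases hb : Λ b = 0
      · rw [if_neg ha, if_pos hb, if_neg (by rw [hΛ, hb, add_zero]; exact ha), mul_comm,
          hgu b a hb ha, add_comm]
      · rw [if_neg ha, if_neg hb]
        by_cases hd : (Λ a).1 * (Λ b).2 - (Λ a).2 * (Λ b).1 = 0
        · obtain ⟨w, h1, h2⟩ := exists_indep (Λ a) (Λ b) ha hb
          obtain ⟨v, rfl⟩ := hs w
          have hv : Λ v ≠ 0 := by
            intro h
            apply h1
            rw [h]
            simp
          have e1 : f (b * v) = f b + f v := hf b v h2
          have e2 : f (a * (b * v)) = f a + f (b * v) := by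
            apply hf
            rw [hΛ]
            simp only [Prod.fst_add, Prod.snd_add]
            intro h
            apply h1
            linear_combination h - hd
          have e3 : f (a * b * v) = f a + f b + f v := by
            rw [mul_assoc, e2, e1, add_assoc]
          by_cases hab : Λ (a * b) = 0
          · rw [if_pos hab]
            rw [hgu (a * b) v hab hv] at e3
            linear_combination e3
          · rw [if_neg hab]
            have e4 : f (a * b * v) = f (a * b) + f v := by
              apply hf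
              intro h
              rw [hΛ] at h
              simp only [Prod.fst_add, Prod.snd_add] at h
              have q1 : ((Λ a).1 * (Λ v).2 - (Λ a).2 * (Λ v).1) * ((Λ a).1 + (Λ b).1) = 0 := by
                linear_combination (Λ a).1 * h + (Λ v).1 * hd
              have q2 : ((Λ a).1 * (Λ v).2 - (Λ a).2 * (Λ v).1) * ((Λ a).2 + (Λ b).2) = 0 := by
                linear_combination (Λ a).2 * h + (Λ v).2 * hd
              apply hab
              rw [hΛ]
              exact Prod.ext ((mul_eq_zero.1 q1).resolve_left h1)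
                ((mul_eq_zero.1 q2).resolve_left h1)
            rw [e4] at e3
            linear_combination e3
        · rw [hf a b hd, if_neg]
          rw [hΛ]
          intro h
          apply hd
          have h1 := congrArg Prod.fst h
          have h2 := congrArg Prod.snd h
          simp only [Prod.fst_add, Prod.snd_add, Prod.fst_zero, Prod.snd_zero] at h1 h2
          linear_combination (Λ a).1 * h2 - (Λ a).2 * h1
  · intro a ha
    simp only
    rw [if_neg ha]

end Pool.Agent.Helper3.REC
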